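import Mathlib

/-!
The Grigorchuk group, as a group of permutations of the vertices of the rooted binary tree
(the finite words over `{0, 1}`, with `false` for `0` and `true` for `1`), and the profinite
topology of a group.
-/

set_option autoImplicit false

namespace Pool.Agent.Grig60

/-- `a (x w) = (1 - x) w` -/
def aFun : List Bool → List Bool
  | [] => []
  | x :: w => (!x) :: w

mutual
/-- `b (0 w) = 0 a(w)` and `b (1 w) = 1 c(w)` -/
def bFun : List Bool → List Bool
  | [] => []
  | false :: w => false :: aFun w
  | true :: w => true :: cFun w

/-- `c (0 w) = 0 a(w)` and `c (1 w) = 1 d(w)` -/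
def cFun : List Bool → List Bool
  | [] => []
  | false :: w => false :: aFun w
  | true :: w => true :: dFun w

/-- `d (0 w) = 0 w` and `d (1 w) = 1 b(w)` -/
def dFun : List Bool → List Bool
  | [] => []
  | false :: w => false :: w
  | true :: w => true :: bFun w
end

theorem aFun_invol : Function.Involutive aFun := by
  rintro (_ | ⟨x, w⟩)
  · rfl
  · simp [aFun]

theorem bcdFun_invol (w : List Bool) :
    bFun (bFun w) = w ∧ cFun (cFun w) = w ∧ dFun (dFun w) = w := by
  induction w with
  | nil => simp [bFun, cFun, dFun]
  | cons x w ih =>
    cases x
    · simp [bFun, cFun, dFun, aFun_invol w]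
    · simp [bFun, cFun, dFun, ih]

/-- the generator `a` -/
def a : Equiv.Perm (List Bool) := Function.Involutive.toPerm aFun aFun_invol
/-- the generator `b` -/
def b : Equiv.Perm (List Bool) := Function.Involutive.toPerm bFun fun w => (bcdFun_invol w).1
/-- the generator `c` -/
def c : Equiv.Perm (List Bool) := Function.Involutive.toPerm cFun fun w => (bcdFun_invol w).2.1
/-- the generator `d` -/
def d : Equiv.Perm (List Bool) := Function.Involutive.toPerm dFun fun w => (bcdFun_invol w).2.2

/-- The Grigorchuk group. -/
abbrev Grigorchuk : Subgroup (Equiv.Perm (List Bool)) := Subgroup.closure {a, b, c, d}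

/-- The profinite topology of a group `G`: generated by the cosets of the normal subgroups of
finite index. -/
abbrev profiniteTopology (G : Type) [Group G] : TopologicalSpace G :=
  TopologicalSpace.generateFrom
    {U | ∃ (g : G) (N : Subgroup G), N.Normal ∧ N.FiniteIndex ∧ U = {x | ∃ n ∈ N, x = g * n}}

end Pool.Agent.Grig60
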