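import Pool.Agent.Grig60.Defs

/-!
In the Grigorchuk group there are two finitely generated subgroups whose product is not closed in
the profinite topology. The proof is that of `Pool.Agent.S02978` (helper19), for the tree of finite
words instead of the space of infinite ones.
-/

set_option autoImplicit false

namespace Pool.Agent.Grig60

/-- permutations of the set of finite words -/
abbrev PT := Equiv.Perm (List Bool)

/-- the pair map on functions -/
def prf (f0 f1 : List Bool → List Bool) : List Bool → List Bool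
  | [] => []
  | false :: w => false :: f0 w
  | true :: w => true :: f1 w

/-- `pr g0 g1` acts as `g0` below the letter false and as `g1` below the letter true. -/
def pr (g0 g1 : PT) : PT where
  toFun := prf g0 g1
  invFun := prf g0.symm g1.symm
  left_inv := by rintro (_ | ⟨_ | _, w⟩) <;> simp [prf]
  right_inv := by rintro (_ | ⟨_ | _, w⟩) <;> simp [prf]

lemma pr_nil (g0 g1 : PT) : pr g0 g1 [] = [] := rfl
lemma pr_false (g0 g1 : PT) (x : List Bool) : pr g0 g1 (false :: x) = false :: g0 x := rfl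
lemma pr_true (g0 g1 : PT) (x : List Bool) : pr g0 g1 (true :: x) = true :: g1 x := rfl

lemma pr_mul (g0 g1 h0 h1 : PT) : pr g0 g1 * pr h0 h1 = pr (g0 * h0) (g1 * h1) := by
  apply Equiv.ext
  rintro (_ | ⟨_ | _, w⟩) <;> simp [Equiv.Perm.mul_apply, pr_nil, pr_false, pr_true]

lemma pr_one : pr 1 1 = 1 := by
  apply Equiv.ext
  rintro (_ | ⟨_ | _, w⟩) <;> simp [pr_nil, pr_false, pr_true]

lemma pr_inv (g0 g1 : PT) : (pr g0 g1)⁻¹ = pr g0⁻¹ g1⁻¹ := by
  rw [inv_eq_iff_mul_eq_one, pr_mul]; simp [pr_one]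

lemma pr_inj {g0 g1 h0 h1 : PT} (h : pr g0 g1 = pr h0 h1) : g0 = h0 ∧ g1 = h1 := by
  constructor
  · apply Equiv.ext
    intro x
    have := congrArg (fun f => List.tail (f (false :: x))) h
    simpa [pr_false] using this
  · apply Equiv.ext
    intro x
    have := congrArg (fun f => List.tail (f (true :: x))) h
    simpa [pr_true] using this

/-- flip the first letter -/
abbrev ga : PT := a
abbrev gb : PT := b
abbrev gc : PT := c
abbrev gd : PT := d

lemma ga_nil : ga [] = [] := rfl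
lemma ga_cons (x : Bool) (w : List Bool) : ga (x :: w) = (!x) :: w := rfl

lemma ga_mul_ga : ga * ga = 1 := by
  apply Equiv.ext; intro x; exact aFun_invol x

lemma ga_pr_ga (g0 g1 : PT) : ga * pr g0 g1 * ga = pr g1 g0 := by
  apply Equiv.ext
  rintro (_ | ⟨_ | _, w⟩)
  · simp [Equiv.Perm.mul_apply, ga_nil, pr_nil]
  · simp [Equiv.Perm.mul_apply, ga_cons, pr_true, pr_false]
  · simp [Equiv.Perm.mul_apply, ga_cons, pr_true, pr_false]

lemma gb_eq : gb = pr ga gc := by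
  apply Equiv.ext
  rintro (_ | ⟨_ | _, w⟩)
  · change bFun [] = _
    rw [bFun, pr_nil]
  · change bFun (false :: w) = _
    rw [bFun]; rfl
  · change bFun (true :: w) = _
    rw [bFun]; rfl

lemma gc_eq : gc = pr ga gd := by
  apply Equiv.ext
  rintro (_ | ⟨_ | _, w⟩)
  · change cFun [] = _
    rw [cFun, pr_nil]
  · change cFun (false :: w) = _
    rw [cFun]; rfl
  · change cFun (true :: w) = _
    rw [cFun]; rfl

lemma gd_eq : gd = pr 1 gb := by
  apply Equiv.ext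
  rintro (_ | ⟨_ | _, w⟩)
  · change dFun [] = _
    rw [dFun, pr_nil]
  · change dFun (false :: w) = _
    rw [dFun]; rfl
  · change dFun (true :: w) = _
    rw [dFun]; rfl

lemma gb_sq : gb * gb = 1 := by
  apply Equiv.ext; intro x; exact (bcdFun_invol x).1
lemma gc_sq : gc * gc = 1 := by
  apply Equiv.ext; intro x; exact (bcdFun_invol x).2.1
lemma gd_sq : gd * gd = 1 := by
  apply Equiv.ext; intro x; exact (bcdFun_invol x).2.2

lemma gb_f (w : List Bool) : gb (false :: w) = false :: ga w := by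
  change bFun (false :: w) = _
  rw [bFun]; rfl
lemma gb_t (w : List Bool) : gb (true :: w) = true :: gc w := by
  change bFun (true :: w) = _
  rw [bFun]; rfl
lemma gc_f (w : List Bool) : gc (false :: w) = false :: ga w := by
  change cFun (false :: w) = _
  rw [cFun]; rfl
lemma gc_t (w : List Bool) : gc (true :: w) = true :: gd w := by
  change cFun (true :: w) = _
  rw [cFun]; rfl
lemma gd_f (w : List Bool) : gd (false :: w) = false :: w := by
  change dFun (false :: w) = _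
  rw [dFun]
lemma gd_t (w : List Bool) : gd (true :: w) = true :: gb w := by
  change dFun (true :: w) = _
  rw [dFun]; rfl
lemma gb_n : gb [] = [] := by change bFun [] = _; rw [bFun]
lemma gc_n : gc [] = [] := by change cFun [] = _; rw [cFun]
lemma gd_n : gd [] = [] := by change dFun [] = _; rw [dFun]

lemma bc_aux (w : List Bool) : gb (gc w) = gd w ∧ gc (gd w) = gb w ∧ gd (gb w) = gc w := by
  induction w with
  | nil => rw [gc_n, gd_n, gb_n, gc_n, gd_n]; simp
  | cons x w ih =>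
    have haa : ∀ w, ga (ga w) = w := aFun_invol
    cases x
    · exact ⟨by rw [gc_f, gb_f, gd_f, haa], by rw [gd_f, gc_f, gb_f], by rw [gb_f, gd_f, gc_f]⟩
    · exact ⟨by rw [gc_t, gb_t, gd_t, ih.2.1], by rw [gd_t, gc_t, gb_t, ih.2.2],
        by rw [gb_t, gd_t, gc_t, ih.1]⟩

lemma gb_gc : gb * gc = gd := by
  apply Equiv.ext; intro x; exact (bc_aux x).1

/-! ### The branching subgroup -/

/-- `t = (ab)^2` -/
noncomputable def tt : PT := ga * gb * ga * gb
/-- `v = (t, 1)` -/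
noncomputable def vv : PT := pr tt 1
/-- `w = (1, t)` -/
noncomputable def ww : PT := pr 1 tt

lemma ga_inv : ga⁻¹ = ga := by rw [inv_eq_iff_mul_eq_one]; exact ga_mul_ga
lemma gb_inv : gb⁻¹ = gb := by rw [inv_eq_iff_mul_eq_one]; exact gb_sq
lemma gc_inv : gc⁻¹ = gc := by rw [inv_eq_iff_mul_eq_one]; exact gc_sq
lemma gd_inv : gd⁻¹ = gd := by rw [inv_eq_iff_mul_eq_one]; exact gd_sq

lemma aba : ga * gb * ga = pr gc ga := by rw [gb_eq, ga_pr_ga]
lemma ada : ga * gd * ga = pr gb 1 := by rw [gd_eq, ga_pr_ga]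

lemma tt_eq : tt = pr (gc * ga) (ga * gc) := by
  unfold tt
  rw [aba]
  conv_lhs => rw [gb_eq]
  rw [pr_mul]

lemma vv_word : vv = gb * (ga * gd * ga) * (gb * (ga * gd * ga)) := by
  rw [ada]
  conv_rhs => rw [gb_eq]
  simp only [pr_mul, mul_one]
  rw [gc_sq]
  unfold vv tt
  rw [← gb_eq]
  simp only [mul_assoc]


lemma ga_ga_x (x : PT) : ga * (ga * x) = x := by rw [← mul_assoc, ga_mul_ga, one_mul]
lemma gb_gb_x (x : PT) : gb * (gb * x) = x := by rw [← mul_assoc, gb_sq, one_mul]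
lemma gc_gc_x (x : PT) : gc * (gc * x) = x := by rw [← mul_assoc, gc_sq, one_mul]
lemma gd_gd_x (x : PT) : gd * (gd * x) = x := by rw [← mul_assoc, gd_sq, one_mul]
lemma gb_gc_x (x : PT) : gb * (gc * x) = gd * x := by rw [← mul_assoc, gb_gc]

lemma ga_vv_ga : ga * vv * ga = ww := by unfold vv ww; exact ga_pr_ga _ _
lemma ga_ww_ga : ga * ww * ga = vv := by unfold vv ww; exact ga_pr_ga _ _
lemma ga_tt_ga : ga * tt * ga = tt⁻¹ := by
  unfold tt
  simp only [mul_inv_rev, ga_inv, gb_inv, mul_assoc, ga_ga_x]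

lemma ww_word : ww = ga * (gb * (ga * (gd * (ga * (gb * (ga * gd)))))) := by
  rw [← ga_vv_ga, vv_word]
  simp only [mul_assoc, ga_mul_ga, mul_one]

lemma rel1 : tt⁻¹ * (gc * ga)⁻¹ * tt * (gc * ga) = vv := by
  rw [vv_word]
  unfold tt
  simp only [mul_inv_rev, ga_inv, gb_inv, gc_inv, mul_assoc, ga_ga_x, gb_gc_x]

lemma rel2 : tt * (gc * ga) * tt⁻¹ * (gc * ga)⁻¹ = ww := by
  rw [ww_word]
  unfold tt
  simp only [mul_inv_rev, ga_inv, gb_inv, gc_inv, mul_assoc, ga_ga_x, gb_gc_x, gb_gc]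

lemma pr_vv : vv⁻¹ * tt⁻¹ * vv * tt = pr vv 1 := by
  have h : vv⁻¹ * tt⁻¹ * vv * tt = (pr tt 1)⁻¹ * (pr (gc * ga) (ga * gc))⁻¹ *
      (pr tt 1) * (pr (gc * ga) (ga * gc)) := by
    rw [← tt_eq]; rfl
  rw [h]
  simp only [pr_inv, pr_mul]
  rw [rel1]
  congr 1
  group

lemma pr_ww : vv * tt * vv⁻¹ * tt⁻¹ = pr ww 1 := by
  have h : vv * tt * vv⁻¹ * tt⁻¹ = (pr tt 1) * (pr (gc * ga) (ga * gc)) *
      (pr tt 1)⁻¹ * (pr (gc * ga) (ga * gc))⁻¹ := by
    rw [← tt_eq]; rfl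
  rw [h]
  simp only [pr_inv, pr_mul]
  rw [rel2]
  congr 1
  group

/-- the finitely generated branching subgroup -/
noncomputable def HH : Subgroup PT := Subgroup.closure {tt, vv, ww}

lemma tt_mem : tt ∈ HH := Subgroup.subset_closure (by simp)
lemma vv_mem : vv ∈ HH := Subgroup.subset_closure (by simp)
lemma ww_mem : ww ∈ HH := Subgroup.subset_closure (by simp)

/-- the left embedding as a homomorphism -/
def prL : PT →* PT where
  toFun g := pr g 1
  map_one' := pr_one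
  map_mul' g h := by simp [pr_mul]

/-- the right embedding as a homomorphism -/
def prR : PT →* PT where
  toFun g := pr 1 g
  map_one' := pr_one
  map_mul' g h := by simp [pr_mul]

lemma prL_apply (g : PT) : prL g = pr g 1 := rfl
lemma prR_apply (g : PT) : prR g = pr 1 g := rfl

lemma pr_left_mem {h : PT} (hh : h ∈ HH) : pr h 1 ∈ HH := by
  have : HH ≤ HH.comap prL := by
    conv_lhs => unfold HH
    rw [Subgroup.closure_le]
    rintro x (rfl | rfl | rfl)
    · exact vv_mem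
    · change pr vv 1 ∈ HH
      rw [← pr_vv]
      exact HH.mul_mem (HH.mul_mem (HH.mul_mem (HH.inv_mem vv_mem) (HH.inv_mem tt_mem)) vv_mem)
        tt_mem
    · change pr ww 1 ∈ HH
      rw [← pr_ww]
      exact HH.mul_mem (HH.mul_mem (HH.mul_mem vv_mem tt_mem) (HH.inv_mem vv_mem))
        (HH.inv_mem tt_mem)
  exact this hh

/-- conjugation by the first generator -/
def cga : PT →* PT where
  toFun g := ga * g * ga
  map_one' := by simp [ga_mul_ga]
  map_mul' g h := by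
    simp only [mul_assoc, ga_ga_x]

lemma cga_mem {h : PT} (hh : h ∈ HH) : ga * h * ga ∈ HH := by
  have : HH ≤ HH.comap cga := by
    conv_lhs => unfold HH
    rw [Subgroup.closure_le]
    rintro x (rfl | rfl | rfl)
    · change ga * tt * ga ∈ HH
      rw [ga_tt_ga]; exact HH.inv_mem tt_mem
    · change ga * vv * ga ∈ HH
      rw [ga_vv_ga]; exact ww_mem
    · change ga * ww * ga ∈ HH
      rw [ga_ww_ga]; exact vv_mem
  exact this hh

lemma pr_right_mem {h : PT} (hh : h ∈ HH) : pr 1 h ∈ HH := by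
  have := cga_mem (pr_left_mem hh)
  rwa [ga_pr_ga] at this

lemma pr_mem {g h : PT} (hg : g ∈ HH) (hh : h ∈ HH) : pr g h ∈ HH := by
  have := HH.mul_mem (pr_left_mem hg) (pr_right_mem hh)
  rwa [pr_mul, mul_one, one_mul] at this

/-- The Grigorchuk group. -/
abbrev GG : Subgroup PT := Grigorchuk

lemma ga_mem : ga ∈ GG := Subgroup.subset_closure (by simp)
lemma gb_mem : gb ∈ GG := Subgroup.subset_closure (by simp)
lemma gc_mem : gc ∈ GG := Subgroup.subset_closure (by simp)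
lemma gd_mem : gd ∈ GG := Subgroup.subset_closure (by simp)

lemma HH_le_GG : HH ≤ GG := by
  have h1 : tt ∈ GG := GG.mul_mem (GG.mul_mem (GG.mul_mem ga_mem gb_mem) ga_mem) gb_mem
  have h2 : vv ∈ GG := by
    rw [vv_word]
    have := GG.mul_mem gb_mem (GG.mul_mem (GG.mul_mem ga_mem gd_mem) ga_mem)
    exact GG.mul_mem this this
  have h3 : ww ∈ GG := by
    rw [← ga_vv_ga]
    exact GG.mul_mem (GG.mul_mem ga_mem h2) ga_mem
  unfold HH
  rw [Subgroup.closure_le]
  rintro x (rfl | rfl | rfl)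
  · exact h1
  · exact h2
  · exact h3

/-! ### Germs -/

/-- the first `n` letters of an infinite word -/
def pre (ξ : ℕ → Bool) (n : ℕ) : List Bool := (List.range n).map ξ

lemma pre_length (ξ : ℕ → Bool) (n : ℕ) : (pre ξ n).length = n := by simp [pre]

lemma pre_add (ξ : ℕ → Bool) (n m : ℕ) :
    pre ξ (n + m) = pre ξ n ++ pre (fun i => ξ (n + i)) m := by
  unfold pre
  rw [List.range_add, List.map_append, List.map_map]
  rfl

lemma pre_succ (ξ : ℕ → Bool) (n : ℕ) : pre ξ (n + 1) = ξ 0 :: pre (fun i => ξ (i + 1)) n := by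
  rw [add_comm, pre_add]
  simp only [add_comm 1]
  rfl

/-- trivial germs at points with infinitely many false letters -/
def Germ (g : PT) : Prop :=
  ∀ ξ : ℕ → Bool, (∀ N, ∃ j, N ≤ j ∧ ξ j = false) →
    ∃ n, ∃ u : List Bool, u.length = n ∧ ∀ w, g (pre ξ n ++ w) = u ++ w

lemma germ_one : Germ 1 := by
  intro ξ _
  exact ⟨0, [], rfl, fun w => rfl⟩

lemma germ_mul {g h : PT} (hg : Germ g) (hh : Germ h) : Germ (g * h) := by
  intro ξ hξ
  obtain ⟨n1, u1, hu1, h1⟩ := hh ξ hξ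
  let η : ℕ → Bool := fun j => if j < n1 then u1.getD j false else ξ j
  have hη : ∀ N, ∃ j, N ≤ j ∧ η j = false := by
    intro N
    obtain ⟨j, hj, hj'⟩ := hξ (max N n1)
    refine ⟨j, le_trans (le_max_left _ _) hj, ?_⟩
    have : ¬ j < n1 := not_lt.mpr (le_trans (le_max_right _ _) hj)
    simp [η, this, hj']
  have hpre : pre η n1 = u1 := by
    apply List.ext_getElem
    · rw [pre_length, hu1]
    · intro i hi hi'
      have : i < n1 := by rwa [hu1] at hi'
      simp [pre, η, this, hi']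
  obtain ⟨n2, u2, hu2, h2⟩ := hg η hη
  refine ⟨n1 + n2, u2 ++ pre (fun i => η (n2 + i)) n1, ?_, ?_⟩
  · rw [List.length_append, hu2, pre_length, add_comm]
  · intro w
    have e1 : pre (fun i => ξ (n1 + i)) n2 = pre (fun i => η (n1 + i)) n2 := by
      unfold pre
      apply List.map_congr_left
      intro i _
      simp [η]
    rw [Equiv.Perm.mul_apply, pre_add, List.append_assoc, h1, e1]
    have e2 : u1 ++ (pre (fun i => η (n1 + i)) n2 ++ w) =
        pre η n2 ++ (pre (fun i => η (n2 + i)) n1 ++ w) := by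
      calc u1 ++ (pre (fun i => η (n1 + i)) n2 ++ w)
          = (pre η n1 ++ pre (fun i => η (n1 + i)) n2) ++ w := by rw [hpre, List.append_assoc]
        _ = pre η (n2 + n1) ++ w := by rw [← pre_add, add_comm]
        _ = _ := by rw [pre_add, List.append_assoc]
    rw [e2, h2, List.append_assoc]

lemma germ_ga : Germ ga := by
  intro ξ _
  refine ⟨1, [!(ξ 0)], rfl, fun w => ?_⟩
  rw [pre_succ]
  rfl

lemma germ_aux (k : ℕ) : ∀ ξ : ℕ → Bool, ξ k = false →
    (∃ u : List Bool, u.length = k + 2 ∧ ∀ w, gb (pre ξ (k + 2) ++ w) = u ++ w) ∧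
    (∃ u : List Bool, u.length = k + 2 ∧ ∀ w, gc (pre ξ (k + 2) ++ w) = u ++ w) ∧
    (∃ u : List Bool, u.length = k + 2 ∧ ∀ w, gd (pre ξ (k + 2) ++ w) = u ++ w) := by
  have base : ∀ (k : ℕ) (ξ : ℕ → Bool), ξ 0 = false →
      (∃ u : List Bool, u.length = k + 2 ∧ ∀ w, gb (pre ξ (k + 2) ++ w) = u ++ w) ∧
      (∃ u : List Bool, u.length = k + 2 ∧ ∀ w, gc (pre ξ (k + 2) ++ w) = u ++ w) ∧
      (∃ u : List Bool, u.length = k + 2 ∧ ∀ w, gd (pre ξ (k + 2) ++ w) = u ++ w) := by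
    intro k ξ h0
    refine ⟨⟨false :: (!(ξ 1)) :: pre (fun i => ξ (i + 2)) k, by simp [pre_length], ?_⟩,
      ⟨false :: (!(ξ 1)) :: pre (fun i => ξ (i + 2)) k, by simp [pre_length], ?_⟩,
      ⟨pre ξ (k + 2), pre_length _ _, ?_⟩⟩
    · intro w
      rw [pre_succ, pre_succ, h0, List.cons_append, gb_f, List.cons_append, ga_cons]
      rfl
    · intro w
      rw [pre_succ, pre_succ, h0, List.cons_append, gc_f, List.cons_append, ga_cons]
      rfl
    · intro w
      rw [pre_succ, h0, List.cons_append, gd_f]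
  induction k with
  | zero => intro ξ h0; exact base 0 ξ h0
  | succ k ih =>
    intro ξ hk
    cases h0 : ξ 0
    · exact base (k + 1) ξ h0
    · obtain ⟨⟨ub, hub, hb⟩, ⟨uc, huc, hc⟩, ⟨ud, hud, hd⟩⟩ := ih (fun i => ξ (i + 1)) hk
      refine ⟨⟨true :: uc, by simp [huc], ?_⟩, ⟨true :: ud, by simp [hud], ?_⟩,
        ⟨true :: ub, by simp [hub], ?_⟩⟩
      · intro w
        rw [pre_succ, h0, List.cons_append, gb_t, hc]; rfl
      · intro w
        rw [pre_succ, h0, List.cons_append, gc_t, hd]; rfl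
      · intro w
        rw [pre_succ, h0, List.cons_append, gd_t, hb]; rfl

lemma germ_bcd : Germ gb ∧ Germ gc ∧ Germ gd := by
  refine ⟨fun ξ hξ => ?_, fun ξ hξ => ?_, fun ξ hξ => ?_⟩
  · obtain ⟨k, -, hk⟩ := hξ 0
    exact ⟨k + 2, (germ_aux k ξ hk).1⟩
  · obtain ⟨k, -, hk⟩ := hξ 0
    exact ⟨k + 2, (germ_aux k ξ hk).2.1⟩
  · obtain ⟨k, -, hk⟩ := hξ 0
    exact ⟨k + 2, (germ_aux k ξ hk).2.2⟩

lemma germ_GG {g : PT} (hg : g ∈ GG) : Germ g := by
  have : Germ g ∧ Germ g⁻¹ := by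
    induction hg using Subgroup.closure_induction with
    | mem x hx =>
      rcases hx with rfl | rfl | rfl | rfl
      · change Germ ga ∧ Germ ga⁻¹
        rw [ga_inv]; exact ⟨germ_ga, germ_ga⟩
      · change Germ gb ∧ Germ gb⁻¹
        rw [gb_inv]; exact ⟨germ_bcd.1, germ_bcd.1⟩
      · change Germ gc ∧ Germ gc⁻¹
        rw [gc_inv]; exact ⟨germ_bcd.2.1, germ_bcd.2.1⟩
      · change Germ gd ∧ Germ gd⁻¹
        rw [gd_inv]; exact ⟨germ_bcd.2.2, germ_bcd.2.2⟩
    | one => rw [inv_one]; exact ⟨germ_one, germ_one⟩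
    | mul x y _ _ h1 h2 =>
      rw [mul_inv_rev]
      exact ⟨germ_mul h1.1 h2.1, germ_mul h2.2 h1.2⟩
    | inv x _ h => rw [inv_inv]; exact ⟨h.2, h.1⟩
  exact this.1

lemma no_fix {k x : PT} (hk : k ∈ GG) (h : k = pr k x) : x = 1 := by
  obtain ⟨n, u, hu, hn⟩ := germ_GG hk (fun _ => false) (fun N => ⟨N, le_rfl, rfl⟩)
  have key : ∀ m w, k (pre (fun _ => false) m ++ (true :: w)) =
      pre (fun _ => false) m ++ (true :: x w) := by
    intro m w
    induction m with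
    | zero =>
      conv_lhs => rw [h]
      rfl
    | succ m ih =>
      rw [pre_succ]
      conv_lhs => rw [h]
      rw [List.cons_append, pr_false, ih]
      rfl
  apply Equiv.ext
  intro w
  have h1 := hn (true :: w)
  rw [key] at h1
  have h2 := (List.append_inj h1 (by rw [pre_length, hu])).2
  simpa using h2

/-! ### The sequences -/

/-- place an automorphism at the vertex `0^n 1` -/
def pl : ℕ → PT → PT
  | 0, y => pr 1 y
  | n + 1, y => pr (pl n y) 1

lemma pl_mul (n : ℕ) (y z : PT) : pl n (y * z) = pl n y * pl n z := by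
  induction n with
  | zero => simp [pl, pr_mul]
  | succ n ih => simp [pl, pr_mul, ih]

lemma pl_one (n : ℕ) : pl n 1 = 1 := by
  induction n with
  | zero => exact pr_one
  | succ n ih => simp only [pl, ih]; exact pr_one

lemma pl_inv (n : ℕ) (y : PT) : pl n y⁻¹ = (pl n y)⁻¹ := by
  rw [eq_inv_iff_mul_eq_one, ← pl_mul, inv_mul_cancel, pl_one]

lemma pl_comm {n m : ℕ} (h : n ≠ m) (y z : PT) : pl n y * pl m z = pl m z * pl n y := by
  induction n generalizing m with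
  | zero =>
    rcases m with _ | m
    · exact absurd rfl h
    · simp [pl, pr_mul]
  | succ n ih =>
    rcases m with _ | m
    · simp [pl, pr_mul]
    · have := ih (m := m) (by omega)
      simp [pl, pr_mul, this]

lemma pl_comm_self (n : ℕ) (x : PT) : pl n x * pl 0 x = pl 0 x * pl n x := by
  by_cases h : n = 0
  · subst h; rfl
  · exact pl_comm h x x

lemma pl_mem {y : PT} (hy : y ∈ HH) (n : ℕ) : pl n y ∈ HH := by
  induction n with
  | zero => exact pr_right_mem hy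
  | succ n ih => exact pr_left_mem ih

/-- the approximating sequence -/
def kk (x : PT) : ℕ → PT
  | 0 => 1
  | n + 1 => pr (kk x n) x

lemma kk_mem {x : PT} (hx : x ∈ HH) (n : ℕ) : kk x n ∈ HH := by
  induction n with
  | zero => exact HH.one_mem
  | succ n ih => exact pr_mem ih hx

lemma kk_eq (x : PT) (n : ℕ) : (kk x n)⁻¹ * pr (kk x n) 1 = pr 1 x⁻¹ * pl n x := by
  induction n with
  | zero => simp [kk, pl, pr_mul, pr_one]
  | succ n ih =>
    have h1 : pr (kk x n) x = pr (kk x n) 1 * pr 1 x := by simp [pr_mul]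
    have h2 : pr 1 x⁻¹ * pl n x * pr 1 x = pl n x := by
      have := pl_comm_self n x
      change pl n x * pr 1 x = pr 1 x * pl n x at this
      rw [mul_assoc, this, ← mul_assoc, pr_mul]
      simp [pr_one]
    calc (kk x (n + 1))⁻¹ * pr (kk x (n + 1)) 1
        = pr ((kk x n)⁻¹ * pr (kk x n) x) x⁻¹ := by
          simp only [kk, pr_inv, pr_mul, mul_one]
      _ = pr (pl n x) x⁻¹ := by
          rw [h1, ← mul_assoc, ih, h2]
      _ = pr 1 x⁻¹ * pl (n + 1) x := by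
          simp [pl, pr_mul]

/-- the special commutator -/
noncomputable def xx : PT := pr vv 1

lemma xx_mem : xx ∈ HH := pr_left_mem vv_mem

lemma xx_ne : xx ≠ 1 := by
  intro h
  have h1 : vv = 1 := (pr_inj (h.trans pr_one.symm)).1
  have h2 : tt = 1 := (pr_inj (h1.trans pr_one.symm)).1
  rw [tt_eq] at h2
  have h3 : gc * ga = 1 := (pr_inj (h2.trans pr_one.symm)).1
  have h4 := congrArg (fun g : PT => g [false]) h3
  simp only [Equiv.Perm.mul_apply, ga_cons] at h4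
  rw [Bool.not_false, gc_t, gd_n] at h4
  simp at h4

/-! ### The profinite topology -/

lemma exists_coset {G : Type} [Group G] {U : Set G}
    (hU : @IsOpen G (profiniteTopology G) U) {g : G} (hg : g ∈ U) :
    ∃ N : Subgroup G, N.Normal ∧ N.FiniteIndex ∧ ∀ n ∈ N, g * n ∈ U := by
  have hU' : TopologicalSpace.GenerateOpen {U : Set G | ∃ (g : G) (N : Subgroup G), N.Normal ∧
      N.FiniteIndex ∧ U = {x | ∃ n ∈ N, x = g * n}} U := hU
  clear hU
  induction hU' with
  | basic V hV =>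
    obtain ⟨h, N, h1, h2, rfl⟩ := hV
    obtain ⟨m, hm, rfl⟩ := hg
    exact ⟨N, h1, h2, fun n hn => ⟨m * n, N.mul_mem hm hn, by rw [mul_assoc]⟩⟩
  | univ => exact ⟨⊤, inferInstance, inferInstance, fun n _ => trivial⟩
  | inter V W _ _ hV hW =>
    obtain ⟨N, h1, h2, h3⟩ := hV hg.1
    obtain ⟨N', h1', h2', h3'⟩ := hW hg.2
    exact ⟨N ⊓ N', inferInstance, inferInstance, fun n hn => ⟨h3 n hn.1, h3' n hn.2⟩⟩
  | sUnion S _ hS =>
    obtain ⟨V, hVS, hV⟩ := hg
    obtain ⟨N, h1, h2, h3⟩ := hS V hVS hV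
    exact ⟨N, h1, h2, fun n hn => ⟨V, hVS, h3 n hn⟩⟩

lemma range_eq {G : Type} [Group G] (φ : HH →* G) : φ.range = Subgroup.closure (Set.range
    ![φ ⟨tt, tt_mem⟩, φ ⟨vv, vv_mem⟩, φ ⟨ww, ww_mem⟩]) := by
  apply le_antisymm
  · rw [MonoidHom.range_eq_map]
    have e : Subgroup.closure (((↑) : HH → PT) ⁻¹' {tt, vv, ww}) = ⊤ :=
      Subgroup.closure_closure_coe_preimage
    rw [← e, MonoidHom.map_closure, Subgroup.closure_le]
    rintro _ ⟨⟨h, hh⟩, hm, rfl⟩
    apply Subgroup.subset_closure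
    rcases hm with hm | hm | hm
    · obtain rfl : h = tt := hm
      exact ⟨0, rfl⟩
    · obtain rfl : h = vv := hm
      exact ⟨1, rfl⟩
    · obtain rfl : h = ww := hm
      exact ⟨2, rfl⟩
  · rw [Subgroup.closure_le]
    rintro _ ⟨i, rfl⟩
    fin_cases i
    · exact ⟨_, rfl⟩
    · exact ⟨_, rfl⟩
    · exact ⟨_, rfl⟩

open scoped Pointwise in
theorem main : ∃ u v : Fin 3 → GG, ¬ @IsClosed GG (profiniteTopology GG)
    ((Subgroup.closure (Set.range u) : Set GG) * (Subgroup.closure (Set.range v) : Set GG)) := by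
  classical
  -- the two homomorphisms
  let φ1 : HH →* GG :=
    { toFun := fun h => ⟨pr h.1 h.1, HH_le_GG (pr_mem h.2 h.2)⟩
      map_one' := by apply Subtype.ext; simp [pr_one]
      map_mul' := by intro g h; apply Subtype.ext; simp [pr_mul] }
  let φ2 : HH →* GG :=
    { toFun := fun h => ⟨pr h.1 (pr h.1 1), HH_le_GG (pr_mem h.2 (pr_left_mem h.2))⟩
      map_one' := by apply Subtype.ext; simp [pr_one]
      map_mul' := by intro g h; apply Subtype.ext; simp [pr_mul] }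
  have hφ1 : ∀ h : HH, (φ1 h : PT) = pr h.1 h.1 := fun _ => rfl
  have hφ2 : ∀ h : HH, (φ2 h : PT) = pr h.1 (pr h.1 1) := fun _ => rfl
  refine ⟨![φ1 ⟨tt, tt_mem⟩, φ1 ⟨vv, vv_mem⟩, φ1 ⟨ww, ww_mem⟩],
    ![φ2 ⟨tt, tt_mem⟩, φ2 ⟨vv, vv_mem⟩, φ2 ⟨ww, ww_mem⟩], ?_⟩
  rw [← range_eq φ1, ← range_eq φ2]
  intro hclosed
  have hopen := (@isOpen_compl_iff _ _ (profiniteTopology GG)).mpr hclosed
  let g : GG := ⟨pr 1 (pr 1 xx⁻¹), HH_le_GG (pr_right_mem (pr_right_mem (HH.inv_mem xx_mem)))⟩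
  have hg : g ∈ ((φ1.range : Set GG) * (φ2.range : Set GG))ᶜ := by
    rintro ⟨_, ⟨h, rfl⟩, _, ⟨k, rfl⟩, heq⟩
    have h2 := congrArg (fun z : GG => (z : PT)) heq
    simp only [Subgroup.coe_mul, hφ1, hφ2, pr_mul] at h2
    change pr _ _ = pr 1 (pr 1 xx⁻¹) at h2
    obtain ⟨h3, h4⟩ := pr_inj h2
    have h5 : (h : PT) = (k : PT)⁻¹ := by rw [eq_inv_iff_mul_eq_one]; exact h3
    have h6 : (k : PT) = pr (k : PT) xx := by
      have : pr (k : PT) 1 = (k : PT) * pr 1 xx⁻¹ := by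
        rw [← h4, h5]; group
      calc (k : PT) = (k : PT) * pr 1 xx⁻¹ * pr 1 xx := by
            rw [mul_assoc, pr_mul]; simp [pr_one]
        _ = pr (k : PT) 1 * pr 1 xx := by rw [← this]
        _ = pr (k : PT) xx := by simp [pr_mul]
    exact xx_ne (no_fix (HH_le_GG k.2) h6)
  obtain ⟨M, hMn, hMf, hM⟩ := exists_coset hopen hg
  -- the elements Y_n
  let Y : HH → ℕ → GG := fun y n =>
    ⟨pr 1 (pl n y.1), HH_le_GG (pr_right_mem (pl_mem y.2 n))⟩
  let y : HH := ⟨vv⁻¹, HH.inv_mem vv_mem⟩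
  let z : HH := ⟨tt, tt_mem⟩
  let x : HH := ⟨xx, xx_mem⟩
  obtain ⟨n, m, hnm, hq⟩ := Finite.exists_ne_map_eq_of_infinite
    (fun n : ℕ => (QuotientGroup.mk (Y y n) : GG ⧸ M))
  rw [QuotientGroup.eq] at hq
  have hcomm : (Y y n)⁻¹ * Y y m ∈ M := hq
  have hM2 : ((Y y n)⁻¹ * Y y m)⁻¹ * ((Y z n)⁻¹ * ((Y y n)⁻¹ * Y y m) *
      ((Y z n)⁻¹)⁻¹) ∈ M :=
    M.mul_mem (M.inv_mem hcomm) (hMn.conj_mem _ hcomm _)
  have hX : ((Y y n)⁻¹ * Y y m)⁻¹ * ((Y z n)⁻¹ * ((Y y n)⁻¹ * Y y m) *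
      ((Y z n)⁻¹)⁻¹) = Y x n := by
    apply Subtype.ext
    simp only [Subgroup.coe_mul, Subgroup.coe_inv]
    change ((pr 1 (pl n vv⁻¹))⁻¹ * pr 1 (pl m vv⁻¹))⁻¹ * ((pr 1 (pl n tt))⁻¹ *
      ((pr 1 (pl n vv⁻¹))⁻¹ * pr 1 (pl m vv⁻¹)) * ((pr 1 (pl n tt))⁻¹)⁻¹) = pr 1 (pl n xx)
    simp only [pr_inv, pr_mul]
    have hx : xx = vv⁻¹ * tt⁻¹ * vv * tt := pr_vv.symm
    have hQP : Commute (pl m vv) (pl n vv) := pl_comm (Ne.symm hnm) vv vv
    have hQR : Commute (pl m vv) (pl n tt) := pl_comm (Ne.symm hnm) vv tt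
    rw [hx]
    simp only [pl_mul, pl_inv]
    generalize pl n vv = P at *
    generalize pl m vv = Q at *
    generalize pl n tt = R at *
    have e1 : Commute Q (P⁻¹ * R⁻¹ * P * R) :=
      ((hQP.inv_right.mul_right hQR.inv_right).mul_right hQP).mul_right hQR
    have e2 : Q⁻¹ * R = R * Q⁻¹ := (hQR.inv_left).eq
    have e3 : ((P⁻¹)⁻¹ * Q⁻¹)⁻¹ * (R⁻¹ * ((P⁻¹)⁻¹ * Q⁻¹) * (R⁻¹)⁻¹) = P⁻¹ * R⁻¹ * P * R := by
      calc ((P⁻¹)⁻¹ * Q⁻¹)⁻¹ * (R⁻¹ * ((P⁻¹)⁻¹ * Q⁻¹) * (R⁻¹)⁻¹)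
          = Q * (P⁻¹ * R⁻¹ * P) * (Q⁻¹ * R) := by group
        _ = Q * (P⁻¹ * R⁻¹ * P * R) * Q⁻¹ := by rw [e2]; group
        _ = P⁻¹ * R⁻¹ * P * R := by rw [e1.eq]; group
    rw [e3]
    simp
  have hXM : Y x n ∈ M := hX ▸ hM2
  let k : HH := ⟨kk xx n, kk_mem xx_mem n⟩
  refine hM _ hXM ⟨φ1 k⁻¹, ⟨k⁻¹, rfl⟩, φ2 k, ⟨k, rfl⟩, ?_⟩
  apply Subtype.ext
  change pr (kk xx n)⁻¹ (kk xx n)⁻¹ * pr (kk xx n) (pr (kk xx n) 1) =
    pr 1 (pr 1 xx⁻¹) * pr 1 (pl n xx)
  simp only [pr_mul, kk_eq]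
  simp

end Pool.Agent.Grig60
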